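import Pool.Agent.W669.HD.Stm5
import Pool.Agent.W150.HD.SUM
import Pool.Agent.W975.HD.THO
import Pool.Agent.W688.HD.ADB

/-!
# Nonpositive sectional curvature gives strong nonpositivity on subspaces of dimension at most four
-/

set_option autoImplicit false

namespace Pool.Agent.W98.HD

open Pool.Agent.W669.HD Pool.Agent.W150.HD Pool.Agent.W666.GB Finset

theorem strong_of_neg {V : Type} [NormedAddCommGroup V] [InnerProductSpace ℝ V]
    {R : V → V → V → V → ℝ} (h : OpNonneg (negT R)) : Strong R := by
  refine ⟨fun _ _ _ _ => 0, ?_, ?_⟩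
  · refine ⟨⟨?_, ?_, ?_, ?_⟩, ?_⟩ <;> intros <;> simp
  · have e1 : negT (addT R fun _ _ _ _ => 0) = negT R := by
      funext x y z w
      simp only [negT, addT]; ring
    rw [e1]; exact h

/-- Thorpe's lemma on subspaces of dimension at most four -/
theorem ths : S_THS := by
  intro m V _ _ e R W h1 hW hL hsec
  have hfin : Module.finrank ℝ V = m * 2 := by
    rw [Module.finrank_eq_card_basis e.toBasis]
    simp
  rcases Nat.lt_or_ge m 2 with hm | hm
  · refine strong_of_neg ?_
    interval_cases m
    · intro n x y
      have hs : ∀ v : V, v = 0 := by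
        intro v
        rw [← e.sum_repr v]
        exact sum_eq_zero fun i _ => i.1.elim0
      refine sum_nonneg fun a _ => sum_nonneg fun b _ => ?_
      rw [hs (x a)]
      rw [zeroK (neg_bi (curv_bi h1))]
    · refine two_dim e (neg_bi (curv_bi h1)) ?_
      have := hsec (e (0, false)) (e (0, true))
      simp only [negT]; linarith
  · obtain ⟨e', r, hr, hrW⟩ := Pool.Agent.W688.HD.adb m V e W hm hW
    set f : Fin 4 → V := fun i => e' (r i) with hfdef
    have hf : Orthonormal ℝ f := e'.orthonormal.comp r hr
    have hWf : ∀ x, (∀ i, inner ℝ (f i) x = 0) → x ∈ Wᗮ := by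
      intro x hx
      rw [← e'.sum_repr x]
      refine Submodule.sum_mem _ fun j _ => ?_
      by_cases hj : ∃ i, r i = j
      · obtain ⟨i, rfl⟩ := hj
        rw [e'.repr_apply_apply, hx i, zero_smul]
        exact Submodule.zero_mem _
      · exact Submodule.smul_mem _ _ (hrW j fun i hi => hj ⟨i, hi⟩)
    have hb := curv_bi h1
    have hk1 : Kills f R := fun x hx => hL x (hWf x hx)
    obtain ⟨t, ht⟩ := Pool.Agent.W975.HD.tho (fun i j k l => - R (f i) (f j) (f k) (f l))
      (fun i j k l => by rw [hb.anti (f i) (f j)])
      (fun i j k l => by rw [hb.pair (f i) (f j)])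
      (fun a b => by
        rw [S4_sec hb hf hk1]
        have := hsec (∑ i, a i • f i) (∑ j, b j • f j)
        linarith)
    have hv := vol_four f t
    have hvb : BiForm (vol f t) := hv.toBiForm
    have hvk := vol_kills f t
    have hKb : BiForm (negT (addT R (vol f t))) := neg_bi (add_bi hb hvb)
    have hKk : Kills f (negT (addT R (vol f t))) := by
      intro x hx y z w
      simp only [negT, addT, hk1 x hx y z w, hvk x hx y z w]
      ring
    refine ⟨vol f t, hv, ?_⟩
    refine op_nonneg_of hKb hf hKk fun X hX => ?_
    have h3 := ht X hX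
    refine h3.trans (le_of_eq ?_)
    refine sum_congr rfl fun i _ => sum_congr rfl fun j _ => sum_congr rfl fun k _ =>
      sum_congr rfl fun l _ => ?_
    simp only [negT, addT]
    rw [vol_basis hf]
    ring

end Pool.Agent.W98.HD
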